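import Pool.Agent.H705.RO.Stm3

/-!
# `x ^ ρ / ρ` in polar form and a bound for the increments (ROZ IDN)
-/

set_option autoImplicit false

namespace Pool.Agent.H909.RO

open Pool.Agent.H705.RO

lemma rh_im (γ : ℝ) : (rh γ).im = γ := by
  unfold rh
  simp

lemma rh_re (γ : ℝ) : (rh γ).re = 1 / 2 := by
  unfold rh
  simp

lemma le_norm_rh {γ : ℝ} (_hγ : 1 ≤ γ) : γ ≤ ‖rh γ‖ := by
  have h := Complex.abs_im_le_norm (rh γ)
  rw [rh_im] at h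
  exact (le_abs_self γ).trans h

lemma rh_ne {γ : ℝ} (hγ : 1 ≤ γ) : rh γ ≠ 0 := by
  intro h
  have h1 := le_norm_rh hγ
  rw [h, norm_zero] at h1
  linarith

lemma cpow_rh {x : ℝ} (hx : 1 ≤ x) (γ : ℝ) :
    (x : ℂ) ^ (rh γ) = ((Real.sqrt x : ℝ) : ℂ) * Complex.exp (((γ * Real.log x : ℝ) : ℂ) * Complex.I) := by
  have hx0 : 0 < x := by linarith
  have hxc : (x : ℂ) ≠ 0 := by exact_mod_cast hx0.ne'
  have hs : Real.sqrt x = Real.exp (Real.log x / 2) := by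
    rw [Real.exp_half, Real.exp_log hx0]
  rw [Complex.cpow_def_of_ne_zero hxc, ← Complex.ofReal_log hx0.le, hs, Complex.ofReal_exp, ← Complex.exp_add]
  congr 1
  unfold rh
  push_cast
  ring

lemma div_rh {x : ℝ} (hx : 1 ≤ x) {γ : ℝ} (hγ : 1 ≤ γ) :
    (x : ℂ) ^ (rh γ) / rh γ = ((Real.sqrt x / ‖rh γ‖ : ℝ) : ℂ) *
      Complex.exp (((γ * Real.log x - Complex.arg (rh γ) : ℝ) : ℂ) * Complex.I) := by
  have hn : (0 : ℝ) < ‖rh γ‖ := by
    have := le_norm_rh hγ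
    linarith
  have hnc : ((‖rh γ‖ : ℝ) : ℂ) ≠ 0 := by exact_mod_cast hn.ne'
  rw [div_eq_iff (rh_ne hγ), cpow_rh hx]
  have h1 : rh γ = ((‖rh γ‖ : ℝ) : ℂ) * Complex.exp ((Complex.arg (rh γ) : ℂ) * Complex.I) :=
    (Complex.norm_mul_exp_arg_mul_I (rh γ)).symm
  have h2 : ((Real.sqrt x / ‖rh γ‖ : ℝ) : ℂ) *
      Complex.exp (((γ * Real.log x - Complex.arg (rh γ) : ℝ) : ℂ) * Complex.I) *
      (((‖rh γ‖ : ℝ) : ℂ) * Complex.exp ((Complex.arg (rh γ) : ℂ) * Complex.I)) =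
      ((Real.sqrt x : ℝ) : ℂ) * (Complex.exp (((γ * Real.log x - Complex.arg (rh γ) : ℝ) : ℂ) * Complex.I) *
        Complex.exp ((Complex.arg (rh γ) : ℂ) * Complex.I)) := by
    push_cast
    field_simp
  calc ((Real.sqrt x : ℝ) : ℂ) * Complex.exp (((γ * Real.log x : ℝ) : ℂ) * Complex.I)
      = ((Real.sqrt x : ℝ) : ℂ) * (Complex.exp (((γ * Real.log x - Complex.arg (rh γ) : ℝ) : ℂ) * Complex.I) *
        Complex.exp ((Complex.arg (rh γ) : ℂ) * Complex.I)) := by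
        rw [← Complex.exp_add]
        congr 2
        push_cast
        ring
    _ = _ := by rw [← h2, ← h1]

lemma part1 (x γ v : ℝ) (hx : 1 ≤ x) (hγ : 1 ≤ γ) :
    Real.sqrt x * (2 / ‖rh γ‖ * Real.cos (γ * Real.log x + 2 * Real.pi * v + -Complex.arg (rh γ))) =
      2 * ((x : ℂ) ^ (rh γ) / rh γ * Complex.exp (2 * (Real.pi : ℂ) * Complex.I * (v : ℂ))).re := by
  have h1 : (x : ℂ) ^ (rh γ) / rh γ * Complex.exp (2 * (Real.pi : ℂ) * Complex.I * (v : ℂ)) =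
      ((Real.sqrt x / ‖rh γ‖ : ℝ) : ℂ) *
        Complex.exp (((γ * Real.log x + 2 * Real.pi * v + -Complex.arg (rh γ) : ℝ) : ℂ) * Complex.I) := by
    rw [div_rh hx hγ, mul_assoc, ← Complex.exp_add]
    congr 2
    push_cast
    ring
  rw [h1, Complex.re_ofReal_mul, Complex.exp_ofReal_mul_I_re]
  ring

lemma bound1 {γ x y : ℝ} (hx : 1 ≤ x) (hxy : x ≤ y) :
    ‖((y : ℂ) ^ (rh γ) - (x : ℂ) ^ (rh γ)) / rh γ‖ ≤ (y - x) / Real.sqrt x := by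
  have hx0 : 0 < x := by linarith
  have hint := integral_cpow (a := x) (b := y) (r := rh γ - 1) (Or.inl (by
    rw [Complex.sub_re, rh_re, Complex.one_re]; norm_num))
  rw [sub_add_cancel] at hint
  rw [← hint]
  have hb : ∀ s ∈ Set.uIoc x y, ‖(s : ℂ) ^ (rh γ - 1)‖ ≤ 1 / Real.sqrt x := by
    intro s hs
    rw [Set.uIoc_of_le hxy] at hs
    have hs0 : 0 < s := hx0.trans hs.1
    rw [Complex.norm_cpow_eq_rpow_re_of_pos hs0, Complex.sub_re, rh_re, Complex.one_re]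
    have h1 : (1 / 2 - 1 : ℝ) = -(1 / 2) := by norm_num
    rw [h1, Real.rpow_neg hs0.le, ← Real.sqrt_eq_rpow, one_div]
    exact inv_anti₀ (Real.sqrt_pos.mpr hx0) (Real.sqrt_le_sqrt hs.1.le)
  have h2 := intervalIntegral.norm_integral_le_of_norm_le_const hb
  refine h2.trans (le_of_eq ?_)
  rw [abs_of_nonneg (by linarith)]
  ring

lemma bound2 {γ x y : ℝ} (hγ : 1 ≤ γ) (hx : 1 ≤ x) (hxy : x ≤ y) :
    ‖((y : ℂ) ^ (rh γ) - (x : ℂ) ^ (rh γ)) / rh γ‖ ≤ 2 * Real.sqrt y / γ := by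
  have hx0 : 0 < x := by linarith
  have hy0 : 0 < y := by linarith
  have hn := le_norm_rh hγ
  have h1 : ∀ z : ℝ, 0 < z → ‖(z : ℂ) ^ (rh γ)‖ = Real.sqrt z := by
    intro z hz
    rw [Complex.norm_cpow_eq_rpow_re_of_pos hz, rh_re, Real.sqrt_eq_rpow]
  rw [norm_div]
  have h2 : ‖(y : ℂ) ^ (rh γ) - (x : ℂ) ^ (rh γ)‖ ≤ 2 * Real.sqrt y := by
    refine (norm_sub_le _ _).trans ?_
    rw [h1 y hy0, h1 x hx0]
    have := Real.sqrt_le_sqrt hxy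
    linarith
  exact div_le_div₀ (by positivity) h2 (by linarith) hn

theorem T_IDN : P_IDN := by
  refine ⟨fun x γ v hx hγ => part1 x γ v hx hγ, ?_⟩
  intro γ x y hγ hx hxy
  refine ⟨((y : ℂ) ^ (rh γ) - (x : ℂ) ^ (rh γ)) / rh γ, bound1 hx hxy, bound2 hγ hx hxy, ?_⟩
  intro v
  set c : ℂ := ((y : ℂ) ^ (rh γ) - (x : ℂ) ^ (rh γ)) / rh γ with hc
  rw [part1 y γ v (by linarith) hγ, part1 x γ v hx hγ, ← mul_sub, ← Complex.sub_re]
  have h1 : (y : ℂ) ^ (rh γ) / rh γ * Complex.exp (2 * (Real.pi : ℂ) * Complex.I * (v : ℂ)) -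
      (x : ℂ) ^ (rh γ) / rh γ * Complex.exp (2 * (Real.pi : ℂ) * Complex.I * (v : ℂ)) =
      ((‖c‖ : ℝ) : ℂ) * Complex.exp (((2 * Real.pi * v + Complex.arg c : ℝ) : ℂ) * Complex.I) := by
    have h2 : (y : ℂ) ^ (rh γ) / rh γ * Complex.exp (2 * (Real.pi : ℂ) * Complex.I * (v : ℂ)) -
        (x : ℂ) ^ (rh γ) / rh γ * Complex.exp (2 * (Real.pi : ℂ) * Complex.I * (v : ℂ)) =
        c * Complex.exp (2 * (Real.pi : ℂ) * Complex.I * (v : ℂ)) := by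
      rw [hc, sub_div, sub_mul]
    have h3 : c = ((‖c‖ : ℝ) : ℂ) * Complex.exp ((Complex.arg c : ℂ) * Complex.I) :=
      (Complex.norm_mul_exp_arg_mul_I c).symm
    have h4 : ((‖c‖ : ℝ) : ℂ) * Complex.exp (((2 * Real.pi * v + Complex.arg c : ℝ) : ℂ) * Complex.I) =
        (((‖c‖ : ℝ) : ℂ) * Complex.exp ((Complex.arg c : ℂ) * Complex.I)) *
          Complex.exp (2 * (Real.pi : ℂ) * Complex.I * (v : ℂ)) := by
      rw [mul_assoc (((‖c‖ : ℝ) : ℂ)) (Complex.exp ((Complex.arg c : ℂ) * Complex.I)), ← Complex.exp_add]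
      congr 2
      push_cast
      ring
    rw [h2, h4, ← h3]
  rw [h1, Complex.re_ofReal_mul, Complex.exp_ofReal_mul_I_re]
  ring

end Pool.Agent.H909.RO
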